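import Pool.Agent.W580.SH.StmA

namespace Pool.Agent.W952.SH.AB4

open Pool.Agent.W580.SH Finset

theorem mn_perm {R : Type} (κ : Fin 5 → R) (c c' : Fin 5 → (R → ℝ)) (s : Fin 5 → ℝ)
    (σ : Equiv.Perm (Fin 5)) (hs : ∀ j, s j ≠ 0) (hc : ∀ j, c' j = s j • c (σ j))
    (h : mn κ c ≠ 0) : mn κ c' ≠ 0 := by
  have h1 : (Matrix.of fun a b => c' b (κ a) : Matrix (Fin 5) (Fin 5) ℝ) =
      Matrix.of fun i j => s j *
        ((Matrix.of fun a b => c b (κ a) : Matrix (Fin 5) (Fin 5) ℝ).submatrix id σ) i j := by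
    ext a b
    simp [hc]
  unfold mn at h ⊢
  rw [h1, Matrix.det_mul_row, Matrix.det_permute']
  refine mul_ne_zero (Finset.prod_ne_zero_iff.2 fun j _ => hs j) (mul_ne_zero ?_ h)
  rcases Int.units_eq_one_or (Equiv.Perm.sign σ) with h | h <;> simp [h]

theorem main (hE : S_ABE) : S_AB4 := by
  intro R S t f v κ hC
  choose ξ η h1 h2 using hE R S t f v κ hC
  -- the inverse matrix
  let M : Matrix (Fin 5) (Fin 5) ℝ := Matrix.of fun a b => fv f v b (κ a)
  let Z : Matrix (Fin 5) (Fin 5) ℝ :=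
    Matrix.of fun b l => (![(ξ l 0 : ℝ), ξ l 1, η l 0, η l 1, η l 2] : Fin 5 → ℝ) b
  have hMZ : M * Z = 1 := by
    ext b l
    have h := h1 l b
    rw [Matrix.mul_apply, Matrix.one_apply, h]
    simp [M, Z, fv, Fin.sum_univ_succ]
    ring
  have hZM : Z * M = 1 := mul_eq_one_comm.mp hMZ
  have hf : ∀ k : Fin 3, ∑ l, (η l k : ℝ) * f 0 (κ l) = 0 := by
    intro k
    fin_cases k
    · have h := congrFun (congrFun hZM 2) 0
      simpa [Matrix.mul_apply, M, Z, fv] using h
    · have h := congrFun (congrFun hZM 3) 0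
      simpa [Matrix.mul_apply, M, Z, fv] using h
    · have h := congrFun (congrFun hZM 4) 0
      simpa [Matrix.mul_apply, M, Z, fv] using h
  have hv0 : ∑ l, (η l 0 : ℝ) * v 0 (κ l) = 1 := by
    have h := congrFun (congrFun hZM 2) 2
    simpa [Matrix.mul_apply, M, Z, fv] using h
  have hv1 : ∑ l, (η l 1 : ℝ) * v 0 (κ l) = 0 := by
    have h := congrFun (congrFun hZM 3) 2
    simpa [Matrix.mul_apply, M, Z, fv] using h
  have hv2 : ∑ l, (η l 2 : ℝ) * v 0 (κ l) = 0 := by
    have h := congrFun (congrFun hZM 4) 2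
    simpa [Matrix.mul_apply, M, Z, fv] using h
  have hsum : ∑ l, ((η l 0 + η l 1 + η l 2 : ℤ) : ℝ) * (f 0 (κ l) + v 0 (κ l)) = 1 := by
    have : ∀ l, ((η l 0 + η l 1 + η l 2 : ℤ) : ℝ) * (f 0 (κ l) + v 0 (κ l)) =
        (η l 0 : ℝ) * f 0 (κ l) + (η l 1 : ℝ) * f 0 (κ l) + (η l 2 : ℝ) * f 0 (κ l) +
        ((η l 0 : ℝ) * v 0 (κ l) + (η l 1 : ℝ) * v 0 (κ l) + (η l 2 : ℝ) * v 0 (κ l)) := by
      intro l; push_cast; ring
    simp_rw [this, Finset.sum_add_distrib, hf, hv0, hv1, hv2]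
    norm_num
  -- some row of the second kind is half integral
  have hex : ∃ l, t (κ l) = 1 / 2 ∧ (∀ a, ξ l a = 0) ∧
      ∃ k, η l k = 0 ∧ ∀ k', k' ≠ k → (η l k' = 1 ∨ η l k' = -1) := by
    by_contra hno
    push Not at hno
    have hterm : ∀ l, ∃ n : ℤ,
        ((η l 0 + η l 1 + η l 2 : ℤ) : ℝ) * (f 0 (κ l) + v 0 (κ l)) = 2 * (n : ℝ) := by
      intro l
      rcases h2 l with h | ⟨hx, k, hk, hk'⟩
      · exact ⟨0, by simp [h]⟩
      · have hev : ∃ m : ℤ, η l 0 + η l 1 + η l 2 = 2 * m := by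
          fin_cases k
          · rcases hk' 1 (by decide) with h | h <;> rcases hk' 2 (by decide) with h' | h' <;>
              simp only [Fin.zero_eta, Fin.isValue] at hk <;> rw [hk, h, h']
            exacts [⟨1, by norm_num⟩, ⟨0, by norm_num⟩, ⟨0, by norm_num⟩, ⟨-1, by norm_num⟩]
          · rcases hk' 0 (by decide) with h | h <;> rcases hk' 2 (by decide) with h' | h' <;>
              simp only [Fin.mk_one, Fin.isValue] at hk <;> rw [hk, h, h']
            exacts [⟨1, by norm_num⟩, ⟨0, by norm_num⟩, ⟨0, by norm_num⟩, ⟨-1, by norm_num⟩]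
          · rcases hk' 0 (by decide) with h | h <;> rcases hk' 1 (by decide) with h' | h' <;>
              simp only [Fin.reduceFinMk, Fin.isValue] at hk <;> rw [hk, h, h']
            exacts [⟨1, by norm_num⟩, ⟨0, by norm_num⟩, ⟨0, by norm_num⟩, ⟨-1, by norm_num⟩]
        have ht : t (κ l) = 0 := by
          rcases hC.co.1 (κ l) with h | h
          · exact h
          · exfalso
            obtain ⟨k', hk1, hk2⟩ := hno l h hx k hk
            rcases hk' k' hk1 with h | h
            · exact hk2.1 h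
            · exact hk2.2 h
        obtain ⟨m, hm⟩ := hev
        obtain ⟨n, hn⟩ := hC.co.2 _ (hC.qs 0 0 1 1 (Or.inl rfl) (Or.inl rfl)) (κ l)
        refine ⟨m * n, ?_⟩
        have : f 0 (κ l) + v 0 (κ l) = n := by
          have h := hn
          simp only [one_smul, Pi.add_apply, ht, zero_add] at h
          exact h
        rw [this, hm]
        push_cast
        ring
    choose n hn using hterm
    have : (1 : ℝ) = ((2 * ∑ l, n l : ℤ) : ℝ) := by
      rw [← hsum, Finset.sum_congr rfl fun l _ => hn l, ← Finset.mul_sum]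
      push_cast
      rfl
    have h3 : (1 : ℤ) = 2 * ∑ l, n l := by exact_mod_cast this
    omega
  obtain ⟨l, htl, hx, k, hk, hk'⟩ := hex
  -- general construction
  have key : ∀ (π : Equiv.Perm (Fin 3)) (σ : Equiv.Perm (Fin 5)) (s : Fin 3 → ℝ),
      (∀ j, s j = 1 ∨ s j = -1) →
      (∀ j, fv f (fun m => s m • v (π m)) j = (![1, 1, s 0, s 1, s 2] : Fin 5 → ℝ) j •
        fv f v (σ j)) →
      (∀ b, s 0 * v (π 0) (κ b) - s 1 * v (π 1) (κ b) = if b = l then 1 else 0) →
      ∃ (v' : Fin 3 → (R → ℝ)) (a0 : Fin 5), Ctx2 S t f v' κ a0 := by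
    intro π σ s hs hfv he
    refine ⟨fun m => s m • v (π m), l, ⟨hC.ts, hC.co, ?_, ?_, hC.half⟩, htl, ?_⟩
    · intro a k σ' τ' hσ hτ
      have h := hC.qs a (π k) σ' (τ' * s k) hσ (by
        rcases hτ with h | h <;> rcases hs k with h' | h' <;> simp [h, h'])
      simpa [smul_smul] using h
    · refine mn_perm κ (fv f v) _ _ σ ?_ hfv hC.det
      intro j
      have h01 : ∀ x : ℝ, (x = 1 ∨ x = -1) → x ≠ 0 := by
        rintro x (h | h) <;> simp [h]
      fin_cases j
      · simp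
      · simp
      · simpa using h01 _ (hs 0)
      · simpa using h01 _ (hs 1)
      · simpa using h01 _ (hs 2)
    · intro b
      simpa using he b
  have hcoord : ∀ b, (if b = l then (1 : ℝ) else 0) =
      (η l 0 : ℝ) * v 0 (κ b) + (η l 1 : ℝ) * v 1 (κ b) + (η l 2 : ℝ) * v 2 (κ b) := by
    intro b
    rw [h1 l b]
    simp [hx, Fin.sum_univ_three]
  have hpm : ∀ x : ℤ, (x = 1 ∨ x = -1) → ((x : ℝ) = 1 ∨ (x : ℝ) = -1) := by
    rintro x (h | h) <;> simp [h]
  have hpm' : ∀ x : ℤ, (x = 1 ∨ x = -1) → (-(x : ℝ) = 1 ∨ -(x : ℝ) = -1) := by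
    rintro x (h | h) <;> simp [h]
  fin_cases k
  · -- k = 0: use v 2, v 1
    simp only [Fin.zero_eta, Fin.isValue] at hk hk'
    refine key (Equiv.swap 0 2) (Equiv.swap 2 4) ![(η l 2 : ℝ), -(η l 1 : ℝ), 1] ?_ ?_ ?_
    · intro j
      fin_cases j
      · simpa using hpm _ (hk' 2 (by decide))
      · simpa using hpm' _ (hk' 1 (by decide))
      · simp
    · intro j
      fin_cases j <;> simp [fv, Equiv.swap_apply_def]
    · intro b
      rw [hcoord b, hk]
      simp [Equiv.swap_apply_def]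
      ring
  · -- k = 1: use v 0, v 2
    simp only [Fin.mk_one, Fin.isValue] at hk hk'
    refine key (Equiv.swap 1 2) (Equiv.swap 3 4) ![(η l 0 : ℝ), -(η l 2 : ℝ), 1] ?_ ?_ ?_
    · intro j
      fin_cases j
      · simpa using hpm _ (hk' 0 (by decide))
      · simpa using hpm' _ (hk' 2 (by decide))
      · simp
    · intro j
      fin_cases j <;> simp [fv, Equiv.swap_apply_def]
    · intro b
      rw [hcoord b, hk]
      simp [Equiv.swap_apply_def]
  · -- k = 2: use v 0, v 1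
    simp only [Fin.reduceFinMk, Fin.isValue] at hk hk'
    refine key (Equiv.refl _) (Equiv.refl _) ![(η l 0 : ℝ), -(η l 1 : ℝ), 1] ?_ ?_ ?_
    · intro j
      fin_cases j
      · simpa using hpm _ (hk' 0 (by decide))
      · simpa using hpm' _ (hk' 1 (by decide))
      · simp
    · intro j
      fin_cases j <;> simp [fv]
    · intro b
      rw [hcoord b, hk]
      simp

end Pool.Agent.W952.SH.AB4
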